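import Pool.Agent.Helper57_K9.Stmts

/-!
# Squad K9, row CNJ: conjugate elements of `⟨u⟩`
-/

open scoped BigOperators

noncomputable section

namespace Pool.Agent.PP.K9.H90

open Pool.Agent.Helper51_AWC Pool.Agent.Helper79_WRA Pool.Agent.PP Pool.Agent.PP.KF
open Pool.Agent.PP.K9

/-- an automorphism of the source which respects the kernel descends -/
theorem exists_desc {C H : Type} [Group C] [Group H] (π : C →* H) (hs : Function.Surjective π)
    (κ : C ≃* C) (hk : ∀ c, π c = 1 ↔ π (κ c) = 1) : ∃ τ : H ≃* H, ∀ c, τ (π c) = π (κ c) := by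
  have hker : π.ker ≤ (π.comp κ.toMonoidHom).ker := by
    intro c hc
    rw [MonoidHom.mem_ker] at hc ⊢
    exact (hk c).1 hc
  let τ₀ : H →* H := π.liftOfSurjective hs ⟨π.comp κ.toMonoidHom, hker⟩
  have hτ : ∀ c, τ₀ (π c) = π (κ c) := fun c =>
    MonoidHom.liftOfRightInverse_comp_apply π _ (Function.rightInverse_surjInv hs)
      ⟨π.comp κ.toMonoidHom, hker⟩ c
  have hinj : Function.Injective τ₀ := by
    rw [injective_iff_map_eq_one]
    intro h hh
    obtain ⟨c, rfl⟩ := hs h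
    rw [hτ] at hh
    exact (hk c).2 hh
  have hsur : Function.Surjective τ₀ := by
    intro h
    obtain ⟨c, rfl⟩ := hs h
    refine ⟨π (κ.symm c), ?_⟩
    rw [hτ, MulEquiv.apply_symm_apply]
  exact ⟨MulEquiv.ofBijective τ₀ ⟨hinj, hsur⟩, hτ⟩

/-- conjugation by an element which normalises a subgroup from both sides -/
def cj {G : Type} [Group G] (C : Subgroup G) (t : G) (h1 : ∀ c ∈ C, t * c * t⁻¹ ∈ C)
    (h2 : ∀ c ∈ C, t⁻¹ * c * t ∈ C) : C ≃* C where
  toFun c := ⟨t * c * t⁻¹, h1 c c.2⟩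
  invFun c := ⟨t⁻¹ * c * t, h2 c c.2⟩
  left_inv c := by ext; simp [mul_assoc]
  right_inv c := by ext; simp [mul_assoc]
  map_mul' c d := by ext; simp [mul_assoc]

/-- a nontrivial element of a group of prime order generates it -/
theorem zpowers_eq {G : Type} [Group G] {ℓ : ℕ} (hℓ : ℓ.Prime) {u w : G} (hu : orderOf u = ℓ)
    (hw : w ∈ Subgroup.zpowers u) (h1 : w ≠ 1) : Subgroup.zpowers w = Subgroup.zpowers u := by
  have hle : Subgroup.zpowers w ≤ Subgroup.zpowers u := by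
    rw [Subgroup.zpowers_le]; exact hw
  have hc : Nat.card (Subgroup.zpowers u) = ℓ := by rw [Nat.card_zpowers, hu]
  haveI : Finite (Subgroup.zpowers u) := Nat.finite_of_card_ne_zero (by rw [hc]; exact hℓ.ne_zero)
  have hd : orderOf w ∣ ℓ := by
    rw [← hc, ← Nat.card_zpowers]
    exact Subgroup.card_dvd_of_le hle
  have ho : orderOf w = ℓ := by
    rcases (Nat.dvd_prime hℓ).1 hd with h | h
    · exact absurd (orderOf_eq_one_iff.1 h) h1
    · exact h
  exact Subgroup.eq_of_le_of_card_ge hle (by rw [hc, Nat.card_zpowers, ho])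

/-- CNJ. -/
theorem cnj : CnjStmt := by
  intro ℓ _ G H _ _ _ _ u π hQ w hw hw1 w' hw' t ht
  have hℓ : ℓ.Prime := Fact.out
  have hw'1 : w' ≠ 1 := by
    rintro rfl
    apply hw1
    have h2 : t * w * t⁻¹ = 1 := ht.symm
    have : w = t⁻¹ * (t * w * t⁻¹) * t := by group
    rw [this, h2]; group
  have z1 := zpowers_eq hℓ hQ.ord hw hw1
  have z2 := zpowers_eq hℓ hQ.ord hw' hw'1
  -- elements of `⟨u⟩` commute with `C`
  have hcom : ∀ c ∈ Cu u, ∀ z ∈ Subgroup.zpowers u, z * c = c * z := by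
    intro c hc z hz
    obtain ⟨k, rfl⟩ := Subgroup.mem_zpowers_iff.1 hz
    have h1 : Commute u c := Subgroup.mem_centralizer_iff.1 hc u rfl
    exact h1.zpow_left k
  -- conjugation by `t` preserves `⟨u⟩`
  have hz1 : ∀ z ∈ Subgroup.zpowers u, t * z * t⁻¹ ∈ Subgroup.zpowers u := by
    intro z hz
    rw [← z1] at hz
    obtain ⟨k, rfl⟩ := Subgroup.mem_zpowers_iff.1 hz
    have : t * w ^ k * t⁻¹ = w' ^ k := by rw [ht, conj_zpow]
    rw [this]
    exact Subgroup.zpow_mem _ hw' k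
  have hz2 : ∀ z ∈ Subgroup.zpowers u, t⁻¹ * z * t ∈ Subgroup.zpowers u := by
    intro z hz
    rw [← z2] at hz
    obtain ⟨k, rfl⟩ := Subgroup.mem_zpowers_iff.1 hz
    have : t⁻¹ * w' ^ k * t = w ^ k := by rw [ht, conj_zpow]; group
    rw [this]
    exact Subgroup.zpow_mem _ hw k
  have hc1 : ∀ c ∈ Cu u, t * c * t⁻¹ ∈ Cu u := by
    intro c hc
    rw [Subgroup.mem_centralizer_iff]
    rintro x (rfl : x = u)
    have h1 := hcom c hc _ (hz2 x (Subgroup.mem_zpowers x))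
    calc x * (t * c * t⁻¹) = t * ((t⁻¹ * x * t) * c) * t⁻¹ := by group
      _ = t * (c * (t⁻¹ * x * t)) * t⁻¹ := by rw [h1]
      _ = t * c * t⁻¹ * x := by group
  have hc2 : ∀ c ∈ Cu u, t⁻¹ * c * t ∈ Cu u := by
    intro c hc
    rw [Subgroup.mem_centralizer_iff]
    rintro x (rfl : x = u)
    have h1 := hcom c hc _ (hz1 x (Subgroup.mem_zpowers x))
    calc x * (t⁻¹ * c * t) = t⁻¹ * ((t * x * t⁻¹) * c) * t := by group
      _ = t⁻¹ * (c * (t * x * t⁻¹)) * t := by rw [h1]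
      _ = t⁻¹ * c * t * x := by group
  obtain ⟨τ, hτ⟩ := exists_desc π hQ.sur (cj (Cu u) t hc1 hc2) (by
    intro c
    rw [hQ.ker, hQ.ker]
    constructor
    · intro h; exact hz1 _ h
    · intro h
      have h2 := hz2 _ h
      have : t⁻¹ * (t * (c : G) * t⁻¹) * t = c := by group
      rwa [show ((cj (Cu u) t hc1 hc2 c : Cu u) : G) = t * c * t⁻¹ from rfl, this] at h2)
  refine ⟨τ, fun p χ hχ => ?_⟩
  unfold Av
  rw [← finsum_comp_equiv (cj (Cu u) t hc1 hc2).toEquiv]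
  refine congrArg _ (finsum_congr fun s => ?_)
  have hreg : Reg ℓ ((cj (Cu u) t hc1 hc2).toEquiv s) ↔ Reg ℓ s := by
    unfold Reg
    rw [show ((cj (Cu u) t hc1 hc2).toEquiv s) = cj (Cu u) t hc1 hc2 s from rfl, MulEquiv.orderOf_eq]
  have hval : χ (w' * ((cj (Cu u) t hc1 hc2).toEquiv s : Cu u)) = χ (w * s) := by
    have e1 : w' * (((cj (Cu u) t hc1 hc2).toEquiv s : Cu u) : G) = (t * (w * s)) * t⁻¹ := by
      rw [show (((cj (Cu u) t hc1 hc2).toEquiv s : Cu u) : G) = t * s * t⁻¹ from rfl, ht]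
      group
    rw [e1, irr_mul_comm hχ]
    have e2 : t⁻¹ * (t * (w * (s : G))) = w * s := by group
    rw [e2]
  have hp : p (π ((cj (Cu u) t hc1 hc2).toEquiv s)) = p (τ (π s)) := by
    rw [hτ]; rfl
  rw [hval, hp]
  exact finsum_congr_Prop (propext hreg) (fun _ => rfl)

end Pool.Agent.PP.K9.H90
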